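import Pool.Agent.H20.RT.Stmts

/-!
Row BIG of board rt (MP_a315fd_nt): assembly for one good pair.
-/

set_option autoImplicit false

namespace Pool.RT

theorem big_revk_lt : ∀ k n : ℕ, revk k n < 10 ^ k := by
  intro k
  induction k with
  | zero => intro n; simp [revk]
  | succ k ih =>
    intro n
    have h1 := ih (n / 10)
    have h2 : n % 10 ≤ 9 := by omega
    have h3 : (n % 10) * 10 ^ k ≤ 9 * 10 ^ k := Nat.mul_le_mul_right _ h2
    have h4 : 10 ^ (k + 1) = 10 * 10 ^ k := by ring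
    have h5 : revk (k + 1) n = (n % 10) * 10 ^ k + revk k (n / 10) := rfl
    omega

/-- the required counts -/
def bigc (M b e : ℕ) (d : ℕ) : ℕ :=
  if d = 5 then b + e else if d = 6 then M + b else M

theorem BIG_thm (hTWD : TWDStmt) (hZ1 : Z1Stmt) (hTGT : TGTStmt) (hRV4 : RV4Stmt)
    (hSTR : STRStmt) (hINN : INNStmt) (hDCS : DCSStmt) : BIGStmt := by
  intro t0 ht0 h r t hr hh ht
  have hM0 : 2 * t + 22 ≤ r * r := by nlinarith
  obtain ⟨M, b, e, k, h1, h2, h3, h4⟩ := hTGT t0 ht0 r (2 * t + 22) hr (by omega) hM0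
  refine ⟨k + 2, ?_⟩
  intro V W hV hW hG
  obtain ⟨hI1, hI2⟩ := hINN h V W hV hW
  obtain ⟨hD1, hD2, hD3, -⟩ := hDCS
  have hrV := big_revk_lt h V
  have hrW := big_revk_lt h W
  -- the counts f d
  have hf : ∀ d, 1 ≤ d → d ≤ 9 →
      cnt d (V + W) + cnt d (revk h V + revk h W) ≤ 2 * t + 2 ∧
      dc h d (V + W) + dc h d (revk h V + revk h W) ≤
        cnt d (V + W) + cnt d (revk h V + revk h W) := by
    intro d hd1 hd9
    have g := hG d (by omega)
    have a1 := hD1 h d (V + W) hd1 (by omega)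
    have a2 := hD1 h d (revk h V + revk h W) hd1 (by omega)
    have a3 := hD2 h d (V + W) hd1
    have a4 := hD2 h d (revk h V + revk h W) hd1
    constructor <;> omega
  have hs1 := hD3 h (V + W)
  have hs2 := hD3 h (revk h V + revk h W)
  have h0 := hG 0 (by norm_num)
  have hc : ∀ d, 1 ≤ d → d ≤ 9 → 2 * t + 22 ≤ bigc M b e d := by
    intro d _ _
    unfold bigc
    split_ifs <;> omega
  obtain ⟨P, Q, hWr, hP⟩ := hSTR
    (fun d => bigc M b e d - (cnt d (V + W) + cnt d (revk h V + revk h W)))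
    (by
      intro d hd1 hd9
      have := hf d hd1 hd9
      have := hc d hd1 hd9
      show 20 ≤ bigc M b e d - (cnt d (V + W) + cnt d (revk h V + revk h W))
      omega) (4600 * r)
    (by
      have f1 := hf 1 (by norm_num) (by norm_num)
      have f2 := hf 2 (by norm_num) (by norm_num)
      have f3 := hf 3 (by norm_num) (by norm_num)
      have f4 := hf 4 (by norm_num) (by norm_num)
      have f5 := hf 5 (by norm_num) (by norm_num)
      have f6 := hf 6 (by norm_num) (by norm_num)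
      have f7 := hf 7 (by norm_num) (by norm_num)
      have f8 := hf 8 (by norm_num) (by norm_num)
      have f9 := hf 9 (by norm_num) (by norm_num)
      have c1 : bigc M b e 1 = M := by simp [bigc]
      have c2 : bigc M b e 2 = M := by simp [bigc]
      have c3 : bigc M b e 3 = M := by simp [bigc]
      have c4 : bigc M b e 4 = M := by simp [bigc]
      have c5 : bigc M b e 5 = b + e := by simp [bigc]
      have c6 : bigc M b e 6 = M + b := by simp [bigc]
      have c7 : bigc M b e 7 = M := by simp [bigc]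
      have c8 : bigc M b e 8 = M := by simp [bigc]
      have c9 : bigc M b e 9 = M := by simp [bigc]
      simp only [c1, c2, c3, c4, c5, c6, c7, c8, c9]
      omega)
  refine ⟨P, Q, hWr.1, hWr.2.1, hP, ?_⟩
  set K := 4600 * r with hK
  set F := inner h V W with hF
  set n := P * 10 ^ (K + (2 * h + 2)) + F * 10 ^ K + Q with hn
  have hcnt := hWr.2.2 (2 * h + 2) F hI1
  have hK1 : 1 ≤ K := by omega
  obtain ⟨K', hK'⟩ : ∃ K', K = K' + 1 := ⟨K - 1, by omega⟩
  -- the number of digits of n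
  have hlo : 10 ^ (2 * K' + (2 * h + 2) + 1) ≤ n := by
    have e1 : 10 ^ K' ≤ P := by
      have : 10 ^ K = 10 * 10 ^ K' := by rw [hK']; ring
      omega
    have e2 : (10 : ℕ) ^ (2 * K' + (2 * h + 2) + 1) = 10 ^ K' * 10 ^ (K + (2 * h + 2)) := by
      rw [← pow_add]; congr 1; omega
    have e3 : 10 ^ K' * 10 ^ (K + (2 * h + 2)) ≤ P * 10 ^ (K + (2 * h + 2)) :=
      Nat.mul_le_mul_right _ e1
    rw [e2]
    omega
  have hhi : n < 10 ^ (2 * K' + (2 * h + 2) + 1 + 1) := by
    have e1 : (10 : ℕ) ^ (2 * K' + (2 * h + 2) + 1 + 1) = 10 ^ K * 10 ^ (K + (2 * h + 2)) := by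
      rw [← pow_add]; congr 1; omega
    have e2 : (P + 1) * 10 ^ (K + (2 * h + 2)) ≤ 10 ^ K * 10 ^ (K + (2 * h + 2)) :=
      Nat.mul_le_mul_right _ hWr.1
    have e3 : (F + 1) * 10 ^ K ≤ 10 ^ (2 * h + 2) * 10 ^ K := Nat.mul_le_mul_right _ hI1
    have e4 : (10 : ℕ) ^ (K + (2 * h + 2)) = 10 ^ (2 * h + 2) * 10 ^ K := by
      rw [← pow_add]; congr 1; omega
    have e5 := hWr.2.1
    rw [e1]
    have e6 : (P + 1) * 10 ^ (K + (2 * h + 2)) = P * 10 ^ (K + (2 * h + 2)) +
      10 ^ (K + (2 * h + 2)) := by ring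
    have e7 : (F + 1) * 10 ^ K = F * 10 ^ K + 10 ^ K := by ring
    omega
  have hrv := hRV4 (2 * K' + (2 * h + 2) + 1) n hlo hhi
  have hlen : 2 * K' + (2 * h + 2) + 1 + 1 = 2 * K + (2 * h + 2) := by omega
  rw [hlen] at hrv
  have hS : S (2 * K + (2 * h + 2)) n = n + rv n := by
    unfold S
    rw [hrv]
  have hfin : ∀ d, 1 ≤ d → d ≤ 9 → cnt d (n + rv n) = bigc M b e d := by
    intro d hd1 hd9
    have a1 := hcnt d hd1 hd9
    have a2 := hI2 d hd1 hd9
    have a3 := hf d hd1 hd9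
    have a4 := hc d hd1 hd9
    rw [hS, a2] at a1
    omega
  have hT : T n = Wd M M M M (b + e) (M + b) M M M := by
    apply hTWD
    · rw [hfin 1 (by norm_num) (by norm_num)]; simp [bigc]
    · rw [hfin 2 (by norm_num) (by norm_num)]; simp [bigc]
    · rw [hfin 3 (by norm_num) (by norm_num)]; simp [bigc]
    · rw [hfin 4 (by norm_num) (by norm_num)]; simp [bigc]
    · rw [hfin 5 (by norm_num) (by norm_num)]; simp [bigc]
    · rw [hfin 6 (by norm_num) (by norm_num)]; simp [bigc]
    · rw [hfin 7 (by norm_num) (by norm_num)]; simp [bigc]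
    · rw [hfin 8 (by norm_num) (by norm_num)]; simp [bigc]
    · rw [hfin 9 (by norm_num) (by norm_num)]; simp [bigc]
  have hTT : T (T n) = Wd (8 * M + e) (2 * b) 0 0 0 0 0 0 0 := by
    rw [hT]
    exact hZ1 M b e (by omega)
  rw [Function.iterate_add_apply]
  show T^[k] (T (T n)) = _
  rw [hTT]
  exact h4

end Pool.RT
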